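import Pool.Agent.R470.VM.Asm3

/-!
Vinogradov's system: the solutions with given differences `y_i - x_i` for all `i` outside a set `R`.
-/

set_option autoImplicit false
set_option linter.all false

namespace Pool.Agent.T2h24.VM

open Finset
open Pool.Agent.R470.VM (SS ss_count S2 s2_count newton_support)

open scoped Classical in
/-- the solutions of Vinogradov's system of degree `k` in `s` pairs of variables in `[1,N]` -/
noncomputable def Sol (s k N : ℕ) : Finset ((Fin s → ℕ) × (Fin s → ℕ)) :=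
  ((Fintype.piFinset fun _ : Fin s => Icc 1 N) ×ˢ
    (Fintype.piFinset fun _ : Fin s => Icc 1 N)).filter fun p =>
    ∀ j : Fin k, ∑ i : Fin s, p.1 i ^ (j.val + 1) = ∑ i : Fin s, p.2 i ^ (j.val + 1)

open scoped Classical in
/-- the solutions with the differences `h i` outside `R` -/
noncomputable def Fx (s k N : ℕ) (h : Fin s → ℤ) (R : Finset (Fin s)) :
    Finset ((Fin s → ℕ) × (Fin s → ℕ)) :=
  (Sol s k N).filter fun p => ∀ i, i ∉ R → (p.2 i : ℤ) - p.1 i = h i

lemma mem_Sol {s k N : ℕ} {p : (Fin s → ℕ) × (Fin s → ℕ)} : p ∈ Sol s k N ↔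
    ((∀ i, p.1 i ∈ Icc 1 N) ∧ (∀ i, p.2 i ∈ Icc 1 N)) ∧
    ∀ j : Fin k, ∑ i : Fin s, p.1 i ^ (j.val + 1) = ∑ i : Fin s, p.2 i ^ (j.val + 1) := by
  rw [Sol, mem_filter, mem_product, Fintype.mem_piFinset, Fintype.mem_piFinset]

lemma mem_Fx {s k N : ℕ} {h : Fin s → ℤ} {R : Finset (Fin s)} {p : (Fin s → ℕ) × (Fin s → ℕ)} :
    p ∈ Fx s k N h R ↔ p ∈ Sol s k N ∧ ∀ i, i ∉ R → (p.2 i : ℤ) - p.1 i = h i := by
  rw [Fx, mem_filter]

lemma card_off {s : ℕ} (N : ℕ) (T : Finset (Fin s)) :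
    (Fintype.piFinset fun i : Fin s => if i ∈ T then ({0} : Finset ℕ) else Icc 1 N).card =
      N ^ (s - T.card) := by
  classical
  rw [Fintype.card_piFinset, ← prod_mul_prod_compl T]
  have e1 : ∏ i ∈ T, (if i ∈ T then ({0} : Finset ℕ) else Icc 1 N).card = 1 := by
    apply prod_eq_one
    intro i hi
    simp [hi]
  have e3 : ∏ i ∈ Tᶜ, (if i ∈ T then ({0} : Finset ℕ) else Icc 1 N).card = N ^ (s - T.card) := by
    rw [prod_congr rfl (g := fun _ => N), prod_const, card_compl, Fintype.card_fin]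
    intro i hi
    rw [mem_compl] at hi
    simp [hi]
  rw [e1, e3, one_mul]

open scoped Classical in
/-- all the differences are given -/
theorem fx_zero {s : ℕ} (n N : ℕ) (hN : 1 ≤ N) (h : Fin s → ℤ) (T : Finset (Fin s))
    (hT : ∀ i, i ∈ T ↔ h i ≠ 0) :
    (Fx s (n + 1) N h ∅).card ≤
      (2 ^ s * (n ^ s * N ^ (n - 1) + (n * (n + 1) + 1) ^ n * N ^ (T.card - n))) *
        N ^ (s - T.card) := by
  let g : (Fin s → ℕ) × (Fin s → ℕ) → (Fin s → ℕ) := fun p i => if i ∈ T then 0 else p.1 i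
  have himg : ((Fx s (n + 1) N h ∅).image g).card ≤ N ^ (s - T.card) := by
    rw [← card_off N T]
    apply card_le_card
    intro v hv
    obtain ⟨p, hp, rfl⟩ := mem_image.1 hv
    rw [mem_Fx, mem_Sol] at hp
    rw [Fintype.mem_piFinset]
    intro i
    by_cases hi : i ∈ T
    · simp [g, hi]
    · have := hp.1.1.1 i
      simp only [g, if_neg hi]
      exact this
  refine (card_le_mul_card_image (Fx s (n + 1) N h ∅) _ ?_).trans (Nat.mul_le_mul_left _ himg)
  intro v hv
  obtain ⟨p0, hp0, hv0⟩ := mem_image.1 hv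
  have hinj : Set.InjOn Prod.fst (((Fx s (n + 1) N h ∅).filter fun p => g p = v :
      Finset ((Fin s → ℕ) × (Fin s → ℕ))) : Set ((Fin s → ℕ) × (Fin s → ℕ))) := by
    intro p hp q hq hpq
    rw [mem_coe, mem_filter, mem_Fx] at hp hq
    refine Prod.ext hpq ?_
    funext i
    have h1 := hp.1.2 i (notMem_empty i)
    have h2 := hq.1.2 i (notMem_empty i)
    rw [hpq] at h1
    omega
  rw [← card_image_of_injOn hinj]
  refine le_trans (card_le_card ?_) (ss_count n N hN T h (fun i hi => (hT i).1 hi) p0.1)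
  intro x hx
  obtain ⟨p, hp, rfl⟩ := mem_image.1 hx
  rw [mem_filter, mem_Fx, mem_Sol] at hp
  have h2 : ∀ i, (p.2 i : ℤ) = p.1 i + h i := fun i => by
    have := hp.1.2 i (notMem_empty i)
    linarith
  rw [SS, mem_filter, Fintype.mem_piFinset]
  refine ⟨hp.1.1.1.1, fun i hi => ?_, fun j => ?_⟩
  · have h3 := congrFun (hp.2.trans hv0.symm) i
    simp only [g, if_neg hi] at h3
    exact h3
  · have h3 : ∑ i, (p.1 i : ℤ) ^ (j.val + 2) = ∑ i, (p.2 i : ℤ) ^ (j.val + 2) := by
      have := hp.1.1.2 ⟨j.val + 1, by omega⟩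
      exact_mod_cast this
    rw [← sum_add_sum_compl T, ← sum_add_sum_compl T fun i => (p.2 i : ℤ) ^ (j.val + 2)] at h3
    have e3 : ∑ i ∈ Tᶜ, (p.2 i : ℤ) ^ (j.val + 2) = ∑ i ∈ Tᶜ, (p.1 i : ℤ) ^ (j.val + 2) := by
      refine sum_congr rfl fun i hi => ?_
      have h0 : h i = 0 := by
        by_contra hne
        exact (mem_compl.1 hi) ((hT i).2 hne)
      rw [h2 i, h0, add_zero]
    have e4 : ∑ i ∈ T, ((p.1 i : ℤ) + h i) ^ (j.val + 2) = ∑ i ∈ T, (p.2 i : ℤ) ^ (j.val + 2) :=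
      sum_congr rfl fun i _ => by rw [← h2 i]
    rw [sum_sub_distrib, e4]
    linarith

open scoped Classical in
/-- the differences are given outside `R` -/
theorem fx_pos {s : ℕ} (n N : ℕ) (hN : 1 ≤ N) (h : Fin s → ℤ) (T R : Finset (Fin s))
    (hT : ∀ i, i ∈ T ↔ h i ≠ 0 ∧ i ∉ R) (i0 : Fin s) (hi0 : i0 ∈ R) :
    (Fx s (n + 1) N h R).card ≤
      (2 ^ (2 * s) * ((n + 1) ^ (2 * s) * N ^ n +
        ((n + 1) * (n + 1) + 1) ^ (n + 1) * N ^ (T.card + 2 * R.card - (n + 1)))) *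
        N ^ (s - (T.card + R.card)) := by
  have hTR : Disjoint T R := disjoint_left.2 fun i hi => ((hT i).1 hi).2
  have h0 : ∀ i, i ∉ T → i ∉ R → h i = 0 := by
    intro i hi hiR
    by_contra hne
    exact hi ((hT i).2 ⟨hne, hiR⟩)
  let g : (Fin s → ℕ) × (Fin s → ℕ) → (Fin s → ℕ) := fun p i => if i ∈ T ∪ R then 0 else p.1 i
  have himg : ((Fx s (n + 1) N h R).image g).card ≤ N ^ (s - (T.card + R.card)) := by
    rw [← card_union_of_disjoint hTR, ← card_off N (T ∪ R)]
    apply card_le_card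
    intro v hv
    obtain ⟨p, hp, rfl⟩ := mem_image.1 hv
    rw [mem_Fx, mem_Sol] at hp
    rw [Fintype.mem_piFinset]
    intro i
    by_cases hi : i ∈ T ∪ R
    · simp only [g, if_pos hi]
      exact mem_singleton_self 0
    · have := hp.1.1.1 i
      simp only [g, if_neg hi]
      exact this
  refine (card_le_mul_card_image (Fx s (n + 1) N h R) _ ?_).trans (Nat.mul_le_mul_left _ himg)
  intro v hv
  obtain ⟨p0, hp0, hv0⟩ := mem_image.1 hv
  have hkey : ∀ p ∈ Fx s (n + 1) N h R, g p = v → (∀ i, i ∉ T → i ∉ R → p.1 i = p0.1 i) ∧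
      (∀ i ∈ T, (p.2 i : ℤ) = p.1 i + h i) := by
    intro p hp hpv
    rw [mem_Fx] at hp
    have h1 : ∀ i, g p i = g p0 i := fun i => congrFun (hpv.trans hv0.symm) i
    refine ⟨fun i hi hiR => ?_, fun i hi => ?_⟩
    · have h3 := h1 i
      have h4 : i ∉ T ∪ R := by
        rw [mem_union, not_or]
        exact ⟨hi, hiR⟩
      simp only [g, if_neg h4] at h3
      exact h3
    · have := hp.2 i (disjoint_left.1 hTR hi)
      linarith
  let Φ : (Fin s → ℕ) × (Fin s → ℕ) → (Fin s ⊕ Fin s → ℕ) := fun p =>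
    Sum.elim p.1 (fun i => if i ∈ R then p.2 i else 0)
  have hinj : Set.InjOn Φ (((Fx s (n + 1) N h R).filter fun p => g p = v :
      Finset ((Fin s → ℕ) × (Fin s → ℕ))) : Set ((Fin s → ℕ) × (Fin s → ℕ))) := by
    intro p hp q hq hpq
    rw [mem_coe, mem_filter, mem_Fx] at hp hq
    have e1 : p.1 = q.1 := by
      funext i
      exact congrFun hpq (Sum.inl i)
    refine Prod.ext e1 ?_
    funext i
    by_cases hiR : i ∈ R
    · have h3 := congrFun hpq (Sum.inr i)
      simp only [Φ, Sum.elim_inr, if_pos hiR] at h3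
      exact h3
    · have h1 := hp.1.2 i hiR
      have h2 := hq.1.2 i hiR
      rw [e1] at h1
      omega
  rw [← card_image_of_injOn hinj]
  have hcard2 : Fintype.card (Fin s ⊕ Fin s) = 2 * s := by
    rw [Fintype.card_sum, Fintype.card_fin]; ring
  let V : Finset (Fin s ⊕ Fin s) := (T ∪ R).disjSum R
  have hVc : V.card = T.card + 2 * R.card := by
    rw [card_disjSum, card_union_of_disjoint hTR]; ring
  let a : Fin s ⊕ Fin s → ℚ := Sum.elim (fun i => if i ∈ R then 0 else 1) (fun _ => 1)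
  let b : Fin s ⊕ Fin s → ℚ := Sum.elim (fun _ => 1) (fun _ => 0)
  let hh : Fin s ⊕ Fin s → ℤ := Sum.elim (fun i => if i ∈ R then 0 else h i) (fun _ => 0)
  let u : Fin s ⊕ Fin s → ℕ := Sum.elim p0.1 (fun _ => 0)
  have hmain := s2_count n N hN V a b hh u ?_ (Sum.inr i0) ?_ ?_
  · rw [hcard2, hVc] at hmain
    refine le_trans (card_le_card ?_) hmain
    intro z hz
    obtain ⟨p, hp, rfl⟩ := mem_image.1 hz
    rw [mem_filter] at hp
    obtain ⟨h1, h2⟩ := hkey p hp.1 hp.2
    have hp1 := hp.1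
    rw [mem_Fx, mem_Sol] at hp1
    rw [S2, mem_filter, Fintype.mem_piFinset]
    refine ⟨?_, fun j => ?_⟩
    · rintro (i | i)
      · by_cases hi : i ∈ T ∪ R
        · rw [if_pos (by simpa [V] using hi)]
          exact hp1.1.1.1 i
        · rw [if_neg (by simpa [V] using hi)]
          rw [mem_union, not_or] at hi
          simp only [Φ, u, Sum.elim_inl, mem_singleton]
          exact h1 i hi.1 hi.2
      · by_cases hi : i ∈ R
        · rw [if_pos (by simpa [V] using hi)]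
          simp only [Φ, Sum.elim_inr, if_pos hi]
          exact hp1.1.1.2 i
        · rw [if_neg (by simpa [V] using hi)]
          simp [Φ, u, hi]
    · simp only [V]
      rw [sum_disjSum, sum_union hTR]
      have e1 : ∑ x ∈ T, (a (Sum.inl x) * ((Φ p (Sum.inl x) : ℚ) + hh (Sum.inl x)) ^ (j.val + 1) -
          b (Sum.inl x) * (Φ p (Sum.inl x) : ℚ) ^ (j.val + 1)) =
          ∑ x ∈ T, ((p.2 x : ℚ) ^ (j.val + 1) - (p.1 x : ℚ) ^ (j.val + 1)) := by
        refine sum_congr rfl fun i hi => ?_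
        have hiR : i ∉ R := disjoint_left.1 hTR hi
        have h3 : (p.2 i : ℚ) = (p.1 i : ℚ) + (h i : ℚ) := by exact_mod_cast h2 i hi
        simp only [a, b, hh, Φ, Sum.elim_inl, if_neg hiR]
        rw [h3]; ring
      have e2 : ∑ x ∈ R, (a (Sum.inl x) * ((Φ p (Sum.inl x) : ℚ) + hh (Sum.inl x)) ^ (j.val + 1) -
          b (Sum.inl x) * (Φ p (Sum.inl x) : ℚ) ^ (j.val + 1)) =
          ∑ x ∈ R, (- (p.1 x : ℚ) ^ (j.val + 1)) := by
        refine sum_congr rfl fun i hi => ?_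
        simp only [a, b, hh, Φ, Sum.elim_inl, if_pos hi]
        ring
      have e3 : ∑ x ∈ R, (a (Sum.inr x) * ((Φ p (Sum.inr x) : ℚ) + hh (Sum.inr x)) ^ (j.val + 1) -
          b (Sum.inr x) * (Φ p (Sum.inr x) : ℚ) ^ (j.val + 1)) =
          ∑ x ∈ R, (p.2 x : ℚ) ^ (j.val + 1) := by
        refine sum_congr rfl fun i hi => ?_
        simp only [a, b, hh, Φ, Sum.elim_inr, if_pos hi]
        push_cast
        ring
      rw [e1, e2, e3]
      have h4 : ∑ i, (p.1 i : ℚ) ^ (j.val + 1) = ∑ i, (p.2 i : ℚ) ^ (j.val + 1) := by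
        exact_mod_cast hp1.1.2 j
      rw [← sum_add_sum_compl (T ∪ R), ← sum_add_sum_compl (T ∪ R) fun i => (p.2 i : ℚ) ^ (j.val + 1),
        sum_union hTR, sum_union hTR] at h4
      have e5 : ∑ i ∈ (T ∪ R)ᶜ, (p.1 i : ℚ) ^ (j.val + 1) = ∑ i ∈ (T ∪ R)ᶜ, (p.2 i : ℚ) ^ (j.val + 1) := by
        refine sum_congr rfl fun i hi => ?_
        rw [mem_compl, mem_union, not_or] at hi
        have h6 := hp1.2 i hi.2
        rw [h0 i hi.1 hi.2] at h6
        have h7 : p.1 i = p.2 i := by omega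
        rw [h7]
      rw [sum_sub_distrib, sum_neg_distrib]
      linarith
  · rintro (i | i) hi
    · by_cases hiR : i ∈ R
      · left
        simp [a, b, hh, hiR]
      · right
        have hiT : i ∈ T := by
          simp only [V, inl_mem_disjSum, mem_union] at hi
          tauto
        refine ⟨by simp [a, hiR], by simp [b], ?_⟩
        simp only [hh, Sum.elim_inl, if_neg hiR]
        exact ((hT i).1 hiT).1
    · left
      simp [a, b, hh]
  · simpa [V] using hi0
  · simp [a, b]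

end Pool.Agent.T2h24.VM
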