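import Pool.Agent.T2h24.VM.Near

/-!
The number of the vectors with few different values and sum zero.
-/

set_option autoImplicit false
set_option linter.all false

namespace Pool.Agent.T2h24.VM

open Finset

/-- the vector with the values `v` for the colouring `c` -/
def ev {s m : ℕ} (c : Fin s → Option (Fin m)) (v : Fin m → ℤ) : Fin s → ℤ :=
  fun i => (c i).elim 0 v

open scoped Classical in
/-- the nonzero vectors with entries in `[-N, N]`, sum zero and at most `m` nonzero values -/
noncomputable def FewV (s m N : ℕ) : Finset (Fin s → ℤ) :=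
  (Fintype.piFinset fun _ : Fin s => Icc (-(N : ℤ)) N).filter fun h =>
    h ≠ 0 ∧ ∑ i, h i = 0 ∧ ((univ.image h).erase 0).card ≤ m

open scoped Classical in
lemma col_card {s m N : ℕ} (c : Fin s → Option (Fin m)) :
    ((Fintype.piFinset fun _ : Fin m => Icc (-(N : ℤ)) N).filter fun v =>
      (∃ i, c i ≠ none) ∧ ∑ i, ev c v i = 0).card ≤ (2 * N + 1) ^ (m - 1) := by
  by_cases hc : ∃ i, c i ≠ none
  · obtain ⟨i0, hi0⟩ := hc
    obtain ⟨j0, hj0⟩ := Option.ne_none_iff_exists'.1 hi0
    have e1 : (Fintype.piFinset fun j : Fin m => if j ∈ ({j0} : Finset (Fin m))ᶜ then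
        Icc (-(N : ℤ)) N else {0}).card = (2 * N + 1) ^ (m - 1) := by
      rw [card_pi, card_compl, Fintype.card_fin, card_singleton, Int.card_Icc]
      congr 1
      omega
    rw [← e1]
    refine card_le_card_of_injOn (fun v j => if j = j0 then 0 else v j) ?_ ?_
    · intro v hv
      rw [mem_coe, mem_filter, Fintype.mem_piFinset] at hv
      rw [mem_coe, Fintype.mem_piFinset]
      intro j
      by_cases hj : j = j0
      · simp [hj]
      · have := hv.1 j
        simpa [hj] using this
    · intro v hv w hw hvw
      rw [mem_coe, mem_filter] at hv hw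
      have h1 : ∀ j, j ≠ j0 → v j = w j := by
        intro j hj
        have := congrFun hvw j
        simpa [hj] using this
      have h2 : ∑ i, (ev c v i - ev c w i) = 0 := by
        rw [sum_sub_distrib, hv.2.2, hw.2.2, sub_zero]
      have h3 : ∀ i, ev c v i - ev c w i = if c i = some j0 then v j0 - w j0 else 0 := by
        intro i
        unfold ev
        rcases hci : c i with _ | j
        · simp
        · by_cases hj : j = j0
          · simp [hj]
          · simp [hj, h1 j hj]
      rw [sum_congr rfl fun i _ => h3 i, ← sum_filter, sum_const, nsmul_eq_mul] at h2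
      have h4 : ((univ.filter fun i => c i = some j0).card : ℤ) ≠ 0 := by
        have : 0 < (univ.filter fun i => c i = some j0).card :=
          card_pos.2 ⟨i0, by simp [hj0]⟩
        omega
      have h5 : v j0 - w j0 = 0 := (mul_eq_zero.1 h2).resolve_left h4
      funext j
      by_cases hj : j = j0
      · rw [hj]; linarith
      · exact h1 j hj
  · rw [filter_false_of_mem]
    · simp
    · intro v _ h
      exact hc h.1

open scoped Classical in
theorem card_FewV (s m N : ℕ) : (FewV s m N).card ≤ (m + 1) ^ s * (2 * N + 1) ^ (m - 1) := by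
  have hsub : FewV s m N ⊆ (univ : Finset (Fin s → Option (Fin m))).biUnion fun c =>
      ((Fintype.piFinset fun _ : Fin m => Icc (-(N : ℤ)) N).filter fun v =>
        (∃ i, c i ≠ none) ∧ ∑ i, ev c v i = 0).image (ev c) := by
    intro h hh
    rw [FewV, mem_filter, Fintype.mem_piFinset] at hh
    obtain ⟨h1, h2, h3, h4⟩ := hh
    set S : Finset ℤ := (univ.image h).erase 0 with hS
    have hmem : ∀ i, h i ≠ 0 → h i ∈ S := fun i hi => by
      rw [hS, mem_erase]
      exact ⟨hi, mem_image_of_mem _ (mem_univ i)⟩
    have hmem' : ∀ z ∈ S, ∃ i, h i = z := fun z hz => by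
      rw [hS, mem_erase, mem_image] at hz
      obtain ⟨-, i, -, hi⟩ := hz
      exact ⟨i, hi⟩
    let c : Fin s → Option (Fin m) := fun i =>
      if hi : h i = 0 then none else some (Fin.castLE h4 (S.equivFin ⟨h i, hmem i hi⟩))
    let v : Fin m → ℤ := fun j =>
      if hj : j.val < S.card then ((S.equivFin.symm ⟨j.val, hj⟩ : S) : ℤ) else 0
    have hev : ev c v = h := by
      funext i
      unfold ev
      by_cases hi : h i = 0
      · simp [c, hi]
      · have e1 : c i = some (Fin.castLE h4 (S.equivFin ⟨h i, hmem i hi⟩)) := by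
          simp only [c, dif_neg hi]
        rw [e1]
        show v _ = h i
        have e2 : (Fin.castLE h4 (S.equivFin ⟨h i, hmem i hi⟩)).val < S.card :=
          (S.equivFin ⟨h i, hmem i hi⟩).isLt
        simp only [v]
        rw [dif_pos e2]
        have e3 : (⟨(Fin.castLE h4 (S.equivFin ⟨h i, hmem i hi⟩)).val, e2⟩ : Fin S.card) =
            S.equivFin ⟨h i, hmem i hi⟩ := rfl
        rw [e3, Equiv.symm_apply_apply]
    rw [mem_biUnion]
    refine ⟨c, mem_univ _, mem_image.2 ⟨v, mem_filter.2 ⟨?_, ?_, ?_⟩, hev⟩⟩
    · rw [Fintype.mem_piFinset]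
      intro j
      simp only [v]
      split_ifs with hj
      · obtain ⟨i, hi⟩ := hmem' _ (S.equivFin.symm ⟨j.val, hj⟩).2
        rw [← hi]
        exact h1 i
      · rw [mem_Icc]
        omega
    · by_contra hne
      push Not at hne
      apply h2
      rw [← hev]
      funext i
      unfold ev
      rw [hne i]
      rfl
    · rw [hev]
      exact h3
  calc (FewV s m N).card ≤ _ := card_le_card hsub
    _ ≤ ∑ c : Fin s → Option (Fin m),
        (((Fintype.piFinset fun _ : Fin m => Icc (-(N : ℤ)) N).filter fun v =>
        (∃ i, c i ≠ none) ∧ ∑ i, ev c v i = 0).image (ev c)).card := card_biUnion_le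
    _ ≤ ∑ _c : Fin s → Option (Fin m), (2 * N + 1) ^ (m - 1) :=
        sum_le_sum fun c _ => card_image_le.trans (col_card c)
    _ = _ := by
        rw [sum_const, card_univ, Fintype.card_fun, Fintype.card_option, Fintype.card_fin,
          Fintype.card_fin, smul_eq_mul]

end Pool.Agent.T2h24.VM
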