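import Pool.Agent.T2h24.VM.Small

/-!
Vinogradov's system: solutions with difference vectors in a given set.
-/

set_option autoImplicit false
set_option linter.all false

namespace Pool.Agent.T2h24.VM

open Finset

/-- the constant -/
def KK (s n : ℕ) : ℕ := 2 ^ (2 * s) * ((n + 1) ^ (2 * s) + ((n + 1) * (n + 1) + 1) ^ (n + 1))

/-- `1` for `0` and `0` otherwise -/
def io (ρ : ℕ) : ℕ := if ρ = 0 then 1 else 0

lemma io_zero : io 0 = 1 := rfl

lemma io_pos {ρ : ℕ} (h : 1 ≤ ρ) : io ρ = 0 := by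
  unfold io
  rw [if_neg (by omega)]

theorem fx_bound {s n : ℕ} (N : ℕ) (hN : 1 ≤ N) (h : Fin s → ℤ) (T R : Finset (Fin s))
    (hT : ∀ i, i ∈ T ↔ h i ≠ 0 ∧ i ∉ R) (hc : n + 2 ≤ T.card + R.card) :
    (Fx s (n + 1) N h R).card ≤ KK s n *
      (N ^ (n - io R.card + (s - (T.card + R.card))) + N ^ (s - (n + 1) + max R.card 1)) := by
  classical
  have hTR : Disjoint T R := disjoint_left.2 fun i hi => ((hT i).1 hi).2
  have hTs : T.card + R.card ≤ s := by
    rw [← card_union_of_disjoint hTR]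
    simpa using card_le_univ (T ∪ R)
  rcases Nat.eq_zero_or_pos R.card with hR | hR
  · have hR0 : R = ∅ := card_eq_zero.1 hR
    subst hR0
    have hT' : ∀ i, i ∈ T ↔ h i ≠ 0 := fun i => by
      rw [hT i]
      simp
    refine (fx_zero n N hN h T hT').trans ?_
    rw [card_empty] at hc hTs ⊢
    obtain ⟨m, hm⟩ : ∃ m, m = T.card := ⟨_, rfl⟩
    rw [← hm] at hc hTs ⊢
    rw [io_zero]
    have e1 : N ^ (n - 1) * N ^ (s - m) = N ^ (n - 1 + (s - (m + 0))) := by
      rw [← pow_add]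
      congr 1
    have e2 : N ^ (m - n) * N ^ (s - m) = N ^ (s - (n + 1) + max 0 1) := by
      rw [← pow_add]
      congr 1
      omega
    have c1 : 2 ^ s * n ^ s ≤ KK s n := by
      unfold KK
      refine Nat.mul_le_mul (Nat.pow_le_pow_right (by norm_num) (by omega)) ?_
      refine le_trans ?_ (Nat.le_add_right _ _)
      exact (Nat.pow_le_pow_left (Nat.le_succ n) s).trans
        (Nat.pow_le_pow_right (by omega) (by omega))
    have c2 : 2 ^ s * (n * (n + 1) + 1) ^ n ≤ KK s n := by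
      unfold KK
      refine Nat.mul_le_mul (Nat.pow_le_pow_right (by norm_num) (by omega)) ?_
      refine le_trans ?_ (Nat.le_add_left _ _)
      exact (Nat.pow_le_pow_left (by nlinarith) n).trans
        (Nat.pow_le_pow_right (by positivity) (by omega))
    calc (2 ^ s * (n ^ s * N ^ (n - 1) + (n * (n + 1) + 1) ^ n * N ^ (m - n))) * N ^ (s - m)
        = (2 ^ s * n ^ s) * (N ^ (n - 1) * N ^ (s - m)) +
          (2 ^ s * (n * (n + 1) + 1) ^ n) * (N ^ (m - n) * N ^ (s - m)) := by ring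
      _ ≤ KK s n * (N ^ (n - 1) * N ^ (s - m)) + KK s n * (N ^ (m - n) * N ^ (s - m)) :=
          Nat.add_le_add (Nat.mul_le_mul_right _ c1) (Nat.mul_le_mul_right _ c2)
      _ = _ := by rw [e1, e2]; ring
  · obtain ⟨i0, hi0⟩ : R.Nonempty := card_pos.1 hR
    refine (fx_pos n N hN h T R hT i0 hi0).trans ?_
    obtain ⟨m, hm⟩ : ∃ m, m = T.card := ⟨_, rfl⟩
    obtain ⟨ρ, hρ⟩ : ∃ ρ, ρ = R.card := ⟨_, rfl⟩
    rw [← hm, ← hρ] at hc hTs ⊢
    rw [← hρ] at hR
    rw [io_pos hR]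
    have e1 : N ^ n * N ^ (s - (m + ρ)) = N ^ (n - 0 + (s - (m + ρ))) := by
      rw [← pow_add]
      congr 1
    have e2 : N ^ (m + 2 * ρ - (n + 1)) * N ^ (s - (m + ρ)) = N ^ (s - (n + 1) + max ρ 1) := by
      rw [← pow_add]
      congr 1
      omega
    calc 2 ^ (2 * s) * ((n + 1) ^ (2 * s) * N ^ n +
        ((n + 1) * (n + 1) + 1) ^ (n + 1) * N ^ (m + 2 * ρ - (n + 1))) * N ^ (s - (m + ρ))
        = (2 ^ (2 * s) * (n + 1) ^ (2 * s)) * (N ^ n * N ^ (s - (m + ρ))) +
          (2 ^ (2 * s) * ((n + 1) * (n + 1) + 1) ^ (n + 1)) *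
            (N ^ (m + 2 * ρ - (n + 1)) * N ^ (s - (m + ρ))) := by ring
      _ ≤ KK s n * (N ^ n * N ^ (s - (m + ρ))) +
            KK s n * (N ^ (m + 2 * ρ - (n + 1)) * N ^ (s - (m + ρ))) := by
          unfold KK
          exact Nat.add_le_add (Nat.mul_le_mul_right _ (Nat.mul_le_mul_left _ (Nat.le_add_right _ _)))
            (Nat.mul_le_mul_right _ (Nat.mul_le_mul_left _ (Nat.le_add_left _ _)))
      _ = _ := by rw [e1, e2]; ring

open scoped Classical in
/-- the pairs of disjoint sets of places -/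
noncomputable def ix (s r M : ℕ) : Finset (Finset (Fin s) × Finset (Fin s)) :=
  univ.filter fun q => Disjoint q.1 q.2 ∧ q.2.card ≤ r ∧ M ≤ q.1.card + q.2.card

lemma card_ix (s r M : ℕ) : (ix s r M).card ≤ 2 ^ (2 * s) := by
  classical
  refine (card_filter_le _ _).trans ?_
  rw [card_univ, Fintype.card_prod, Fintype.card_finset, Fintype.card_fin, ← pow_add]
  exact Nat.pow_le_pow_right (by norm_num) (by omega)

lemma ix_le {s r M : ℕ} {q : Finset (Fin s) × Finset (Fin s)} (hq : q ∈ ix s r M) :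
    q.1.card + q.2.card ≤ s := by
  classical
  rw [ix, mem_filter] at hq
  rw [← card_union_of_disjoint hq.2.1]
  simpa using card_le_univ (q.1 ∪ q.2)

open scoped Classical in
/-- the number of the solutions with the property `Q`, if the difference vectors outside `R` with
support `T` are in `𝒢 T R` -/
theorem gen {s n M r : ℕ} (hM : n + 2 ≤ M) (N : ℕ) (hN : 1 ≤ N)
    (Q : (Fin s → ℕ) × (Fin s → ℕ) → Prop) [DecidablePred Q]
    (𝒢 : Finset (Fin s) → Finset (Fin s) → Finset (Fin s → ℤ))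
    (hQ : ∀ p ∈ ND s (n + 1) N, Q p → M ≤ (supp p).card → ∃ T R : Finset (Fin s),
      R.card ≤ r ∧ M ≤ T.card + R.card ∧ ∃ h ∈ 𝒢 T R, (∀ i, i ∈ T ↔ h i ≠ 0 ∧ i ∉ R) ∧
        p ∈ Fx s (n + 1) N h R) :
    ((ND s (n + 1) N).filter Q).card ≤
      ((ND s (n + 1) N).filter fun p => (supp p).card < M).card +
      ∑ q ∈ ix s r M, (𝒢 q.1 q.2).card * (KK s n *
        (N ^ (n - io q.2.card + (s - (q.1.card + q.2.card))) +
          N ^ (s - (n + 1) + max q.2.card 1))) := by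
  have hsub : (ND s (n + 1) N).filter Q ⊆
      ((ND s (n + 1) N).filter fun p => (supp p).card < M) ∪
      (ix s r M).biUnion fun q =>
        ((𝒢 q.1 q.2).filter fun h => ∀ i, i ∈ q.1 ↔ h i ≠ 0 ∧ i ∉ q.2).biUnion fun h =>
          Fx s (n + 1) N h q.2 := by
    intro p hp
    rw [mem_filter] at hp
    rw [mem_union, mem_filter, mem_biUnion]
    rcases lt_or_ge (supp p).card M with h1 | h1
    · exact Or.inl ⟨hp.1, h1⟩
    · right
      obtain ⟨T, R, hR, hTR, h, hh, h2, h3⟩ := hQ p hp.1 hp.2 h1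
      refine ⟨(T, R), ?_, ?_⟩
      · rw [ix, mem_filter]
        exact ⟨mem_univ _, disjoint_left.2 fun i hi => ((h2 i).1 hi).2, hR, hTR⟩
      · rw [mem_biUnion]
        exact ⟨h, mem_filter.2 ⟨hh, h2⟩, h3⟩
  refine (card_le_card hsub).trans ((card_union_le _ _).trans (Nat.add_le_add_left ?_ _))
  refine card_biUnion_le.trans (sum_le_sum fun q hq => ?_)
  rw [ix, mem_filter] at hq
  refine card_biUnion_le.trans ((sum_le_card_nsmul _ _ (KK s n *
    (N ^ (n - io q.2.card + (s - (q.1.card + q.2.card))) +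
      N ^ (s - (n + 1) + max q.2.card 1))) fun h hh => ?_).trans ?_)
  · exact fx_bound N hN h q.1 q.2 (mem_filter.1 hh).2 (hM.trans hq.2.2.2)
  · rw [smul_eq_mul]
    exact Nat.mul_le_mul_right _ (card_filter_le _ _)

/-- the exponents: the second term -/
lemma exp_two {s n m ρ r H N : ℕ} (hH : 1 ≤ H) (hHN : H ≤ N) (hρr : ρ ≤ r) (hrs : max r 1 ≤ s)
    (hms : m + ρ ≤ s) :
    H ^ (m - io ρ) * N ^ (s - (n + 1) + max ρ 1) ≤
      H ^ (s - max r 1) * N ^ (s - (n + 1) + max r 1) := by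
  have h1 : m - io ρ ≤ s - max ρ 1 := by
    unfold io
    split_ifs <;> omega
  have h2 : max ρ 1 ≤ max r 1 := max_le_max hρr le_rfl
  have h3 : max ρ 1 ≤ s := h2.trans hrs
  calc H ^ (m - io ρ) * N ^ (s - (n + 1) + max ρ 1)
      ≤ H ^ (s - max ρ 1) * N ^ (s - (n + 1) + max ρ 1) :=
        Nat.mul_le_mul_right _ (Nat.pow_le_pow_right hH h1)
    _ = H ^ (s - max r 1) * (H ^ (max r 1 - max ρ 1) * N ^ (s - (n + 1) + max ρ 1)) := by
        rw [← mul_assoc, ← pow_add]
        congr 2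
        omega
    _ ≤ H ^ (s - max r 1) * (N ^ (max r 1 - max ρ 1) * N ^ (s - (n + 1) + max ρ 1)) :=
        Nat.mul_le_mul_left _ (Nat.mul_le_mul_right _ (Nat.pow_le_pow_left hHN _))
    _ = _ := by
        rw [← pow_add]
        congr 2
        omega

/-- the exponents: the first term -/
lemma exp_one {s n m ρ r M H N : ℕ} (hn : 1 ≤ n) (hH : 1 ≤ H) (hHN : H ≤ N) (hρr : ρ ≤ r)
    (hM1 : 1 ≤ M) (hM : M ≤ m + ρ) (hms : m + ρ ≤ s) :
    H ^ (m - io ρ) * N ^ (n - io ρ + (s - (m + ρ))) ≤ H ^ (M - 1) * N ^ (s + n - M - io r) := by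
  have hN : 1 ≤ N := hH.trans hHN
  rcases Nat.eq_zero_or_pos ρ with h0 | h0
  · subst h0
    rw [io_zero]
    have hr : io r ≤ 1 := by
      unfold io
      split_ifs <;> omega
    have e1 : H ^ (m - 1) = H ^ (M - 1) * H ^ (m - M) := by
      rw [← pow_add]
      congr 1
      omega
    rw [e1, mul_assoc]
    apply Nat.mul_le_mul_left
    calc H ^ (m - M) * N ^ (n - 1 + (s - (m + 0))) ≤ N ^ (m - M) * N ^ (n - 1 + (s - (m + 0))) :=
          Nat.mul_le_mul_right _ (Nat.pow_le_pow_left hHN _)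
      _ = N ^ (m - M + (n - 1 + (s - (m + 0)))) := (pow_add _ _ _).symm
      _ ≤ _ := Nat.pow_le_pow_right hN (by omega)
  · rw [io_pos h0, io_pos (h0.trans_le hρr)]
    rcases le_or_gt m (M - 1) with h1 | h1
    · exact Nat.mul_le_mul (Nat.pow_le_pow_right hH (by omega))
        (Nat.pow_le_pow_right hN (by omega))
    · have e1 : H ^ (m - 0) = H ^ (M - 1) * H ^ (m - (M - 1)) := by
        rw [← pow_add]
        congr 1
        omega
      rw [e1, mul_assoc]
      apply Nat.mul_le_mul_left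
      calc H ^ (m - (M - 1)) * N ^ (n - 0 + (s - (m + ρ)))
          ≤ N ^ (m - (M - 1)) * N ^ (n - 0 + (s - (m + ρ))) :=
            Nat.mul_le_mul_right _ (Nat.pow_le_pow_left hHN _)
        _ = N ^ (m - (M - 1) + (n - 0 + (s - (m + ρ)))) := (pow_add _ _ _).symm
        _ ≤ _ := Nat.pow_le_pow_right hN (by omega)

end Pool.Agent.T2h24.VM
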