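import Pool.Agent.T2h24.VM.Gen

/-!
Vinogradov's system: near-diagonal solutions, and solutions with difference vectors in a given set.
-/

set_option autoImplicit false
set_option linter.all false

namespace Pool.Agent.T2h24.VM

open Finset

open scoped Classical in
/-- the vectors with entries in `D` on `T` and zero elsewhere, with sum zero if `R` is empty -/
noncomputable def Box {s : ℕ} (D : Finset ℤ) (T R : Finset (Fin s)) : Finset (Fin s → ℤ) :=
  (Fintype.piFinset fun i : Fin s => if i ∈ T then D else {0}).filter fun h =>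
    R = ∅ → ∑ i, h i = 0

lemma card_pi {s : ℕ} (D : Finset ℤ) (T : Finset (Fin s)) :
    (Fintype.piFinset fun i : Fin s => if i ∈ T then D else {0}).card = D.card ^ T.card := by
  classical
  rw [Fintype.card_piFinset, ← prod_mul_prod_compl T]
  have e1 : ∏ i ∈ T, (if i ∈ T then D else {0}).card = D.card ^ T.card := by
    rw [prod_congr rfl (g := fun _ => D.card), prod_const]
    intro i hi
    simp [hi]
  have e3 : ∏ i ∈ Tᶜ, (if i ∈ T then D else ({0} : Finset ℤ)).card = 1 := by
    apply prod_eq_one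
    intro i hi
    rw [mem_compl] at hi
    simp [hi]
  rw [e1, e3, mul_one]

lemma card_box {s : ℕ} (D : Finset ℤ) (T R : Finset (Fin s)) (hT : R = ∅ → T.Nonempty) :
    (Box D T R).card ≤ D.card ^ (T.card - io R.card) := by
  classical
  rcases R.eq_empty_or_nonempty with hR | hR
  · obtain ⟨i0, hi0⟩ := hT hR
    have e : T.card - io R.card = (T.erase i0).card := by
      rw [hR, card_empty, io_zero, card_erase_of_mem hi0]
    rw [e, ← card_pi]
    refine card_le_card_of_injOn (fun h i => if i = i0 then 0 else h i) ?_ ?_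
    · intro h hh
      rw [mem_coe, Box, mem_filter, Fintype.mem_piFinset] at hh
      rw [mem_coe, Fintype.mem_piFinset]
      intro i
      have h1 := hh.1 i
      by_cases hi : i = i0
      · simp [hi]
      · simp only [if_neg hi, mem_erase, ne_eq, hi, not_false_eq_true, true_and]
        exact h1
    · intro h hh h' hh' heq
      rw [mem_coe, Box, mem_filter] at hh hh'
      have h1 : ∀ i, i ≠ i0 → h i = h' i := by
        intro i hi
        have := congrFun heq i
        simpa [hi] using this
      funext i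
      by_cases hi : i = i0
      · have e1 := hh.2 hR
        have e2 := hh'.2 hR
        rw [← add_sum_erase univ _ (mem_univ i0)] at e1 e2
        rw [sum_congr rfl fun j hj => h1 j (ne_of_mem_erase hj)] at e1
        rw [hi]
        linarith
      · exact h1 i hi
  · rw [io_pos (card_pos.2 hR), Nat.sub_zero, ← card_pi]
    exact card_filter_le _ _

lemma sum_diff {s k N : ℕ} (hk : 1 ≤ k) {p : (Fin s → ℕ) × (Fin s → ℕ)} (hp : p ∈ Sol s k N) :
    ∑ i, ((p.2 i : ℤ) - p.1 i) = 0 := by
  rw [mem_Sol] at hp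
  have h := hp.2 ⟨0, by omega⟩
  simp only [zero_add, pow_one] at h
  have h' : ∑ i, (p.1 i : ℤ) = ∑ i, (p.2 i : ℤ) := by exact_mod_cast h
  rw [sum_sub_distrib, h', sub_self]

open scoped Classical in
/-- the property to have at most `r` differences outside `D`, for the decomposition -/
lemma decomp {s n N M r : ℕ} (D : Finset ℤ) (p : (Fin s → ℕ) × (Fin s → ℕ))
    (hp : p ∈ ND s (n + 1) N)
    (hQ : (univ.filter fun i => (p.2 i : ℤ) - p.1 i ∉ D ∧ p.1 i ≠ p.2 i).card ≤ r)
    (hM : M ≤ (supp p).card) :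
    ∃ T R : Finset (Fin s), R.card ≤ r ∧ M ≤ T.card + R.card ∧
      ∃ h ∈ Box D T R, (∀ i, i ∈ T ↔ h i ≠ 0 ∧ i ∉ R) ∧ p ∈ Fx s (n + 1) N h R := by
  set R : Finset (Fin s) := univ.filter fun i => (p.2 i : ℤ) - p.1 i ∉ D ∧ p.1 i ≠ p.2 i with hR
  set T : Finset (Fin s) := supp p \ R with hTd
  have hRs : R ⊆ supp p := by
    intro i hi
    rw [hR, mem_filter] at hi
    exact mem_supp.2 hi.2.2
  have hTmem : ∀ i, i ∈ T ↔ p.1 i ≠ p.2 i ∧ i ∉ R := by
    intro i
    rw [hTd, mem_sdiff, mem_supp]
  have hsol : p ∈ Sol s (n + 1) N := (mem_ND.1 hp).1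
  refine ⟨T, R, hQ, ?_, fun i => if i ∈ R then 0 else (p.2 i : ℤ) - p.1 i, ?_, ?_, ?_⟩
  · rw [hTd, card_sdiff_of_subset hRs, Nat.sub_add_cancel (card_le_card hRs)]
    exact hM
  · rw [Box, mem_filter, Fintype.mem_piFinset]
    refine ⟨fun i => ?_, fun hR0 => ?_⟩
    · by_cases hi : i ∈ T
      · have h1 := (hTmem i).1 hi
        rw [if_pos hi, if_neg h1.2]
        by_contra hne
        exact h1.2 (by rw [hR, mem_filter]; exact ⟨mem_univ _, hne, h1.1⟩)
      · rw [if_neg hi]
        by_cases hiR : i ∈ R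
        · simp [hiR]
        · have h1 : p.1 i = p.2 i := by
            by_contra hne
            exact hi ((hTmem i).2 ⟨hne, hiR⟩)
          simp [hiR, h1]
    · have h1 : ∀ i, (if i ∈ R then (0 : ℤ) else (p.2 i : ℤ) - p.1 i) = (p.2 i : ℤ) - p.1 i := by
        intro i
        rw [hR0]
        simp
      rw [sum_congr rfl fun i _ => h1 i]
      exact sum_diff (by omega) hsol
  · intro i
    rw [hTmem]
    constructor
    · rintro ⟨h1, h2⟩
      refine ⟨?_, h2⟩
      simp only [if_neg h2]
      omega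
    · rintro ⟨h1, h2⟩
      simp only [if_neg h2] at h1
      exact ⟨by omega, h2⟩
  · rw [mem_Fx]
    refine ⟨hsol, fun i hi => ?_⟩
    rw [if_neg hi]

open scoped Classical in
/-- near-diagonal solutions -/
theorem near_bound {s n M r : ℕ} (hn : 1 ≤ n) (hM : n + 2 ≤ M) (hrs : max r 1 ≤ s)
    (N H : ℕ) (hH : 1 ≤ H) (hHN : H ≤ N) :
    ((ND s (n + 1) N).filter fun p =>
        (univ.filter fun i => (H : ℤ) < |(p.1 i : ℤ) - p.2 i|).card ≤ r).card ≤
      ((ND s (n + 1) N).filter fun p => (supp p).card < M).card +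
      2 ^ (2 * s) * (3 ^ s * KK s n *
        (H ^ (M - 1) * N ^ (s + n - M - io r) +
          H ^ (s - max r 1) * N ^ (s - (n + 1) + max r 1))) := by
  have hN : 1 ≤ N := hH.trans hHN
  refine (gen (r := r) hM N hN _ (Box (Icc (-(H : ℤ)) H)) ?_).trans (Nat.add_le_add_left ?_ _)
  · intro p hp hQ hMp
    refine decomp _ p hp (le_trans (card_le_card ?_) hQ) hMp
    intro i hi
    rw [mem_filter] at hi ⊢
    refine ⟨mem_univ _, ?_⟩
    have h1 := hi.2.1
    rw [mem_Icc, ← abs_le, not_le, abs_sub_comm] at h1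
    exact h1
  · refine (sum_le_card_nsmul _ _ (3 ^ s * KK s n *
        (H ^ (M - 1) * N ^ (s + n - M - io r) +
          H ^ (s - max r 1) * N ^ (s - (n + 1) + max r 1))) fun q hq => ?_).trans ?_
    · have hq' := ix_le hq
      rw [ix, mem_filter] at hq
      obtain ⟨-, h1, h2, h3⟩ := hq
      have hb : (Box (Icc (-(H : ℤ)) H) q.1 q.2).card ≤
          3 ^ s * H ^ (q.1.card - io q.2.card) := by
        refine (card_box _ _ _ fun h0 => ?_).trans ?_
        · rw [← card_pos]
          rw [h0, card_empty] at h3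
          omega
        · rw [Int.card_Icc]
          have e1 : ((H : ℤ) + 1 - -(H : ℤ)).toNat = 2 * H + 1 := by omega
          rw [e1]
          calc (2 * H + 1) ^ (q.1.card - io q.2.card) ≤ (3 * H) ^ (q.1.card - io q.2.card) :=
                Nat.pow_le_pow_left (by omega) _
            _ = 3 ^ (q.1.card - io q.2.card) * H ^ (q.1.card - io q.2.card) := mul_pow _ _ _
            _ ≤ _ := Nat.mul_le_mul_right _ (Nat.pow_le_pow_right (by norm_num) (by omega))
      have t1 := exp_one (s := s) (n := n) (r := r) (M := M) (H := H) (N := N) hn hH hHN h2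
        (by omega) h3 hq'
      have t2 := exp_two (s := s) (n := n) (r := r) (H := H) (N := N) hH hHN h2 hrs hq'
      calc (Box (Icc (-(H : ℤ)) H) q.1 q.2).card * (KK s n *
        (N ^ (n - io q.2.card + (s - (q.1.card + q.2.card))) +
          N ^ (s - (n + 1) + max q.2.card 1)))
          ≤ (3 ^ s * H ^ (q.1.card - io q.2.card)) * (KK s n *
        (N ^ (n - io q.2.card + (s - (q.1.card + q.2.card))) +
          N ^ (s - (n + 1) + max q.2.card 1))) := Nat.mul_le_mul_right _ hb
        _ = 3 ^ s * KK s n * (H ^ (q.1.card - io q.2.card) *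
          N ^ (n - io q.2.card + (s - (q.1.card + q.2.card))) +
          H ^ (q.1.card - io q.2.card) * N ^ (s - (n + 1) + max q.2.card 1)) := by ring
        _ ≤ _ := Nat.mul_le_mul_left _ (Nat.add_le_add t1 t2)
    · rw [smul_eq_mul]
      exact Nat.mul_le_mul_right _ (card_ix s r M)

open scoped Classical in
/-- solutions with difference vectors in a given set, up to `r` entries -/
theorem set_bound {s n M r : ℕ} (hn : 1 ≤ n) (hM : n + 2 ≤ M) (hrs : max r 1 ≤ s)
    (N : ℕ) (hN : 1 ≤ N) (𝓗 : Finset (Fin s → ℤ)) :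
    ((ND s (n + 1) N).filter fun p =>
        ∃ h ∈ 𝓗, (univ.filter fun i => (p.2 i : ℤ) - p.1 i ≠ h i).card ≤ r).card ≤
      ((ND s (n + 1) N).filter fun p => (supp p).card < M).card +
      2 ^ (2 * s) * (𝓗.card * (KK s n *
        (N ^ (s + n - M - io r) + N ^ (s - (n + 1) + max r 1)))) := by
  refine (gen (r := r) hM N hN _ (fun _ R => 𝓗.image fun h i => if i ∈ R then 0 else h i)
    ?_).trans (Nat.add_le_add_left ?_ _)
  · rintro p hp ⟨h, hh, hQ⟩ hMp
    set R : Finset (Fin s) := univ.filter fun i => (p.2 i : ℤ) - p.1 i ≠ h i with hR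
    have hR' : ∀ i, i ∉ R → (p.2 i : ℤ) - p.1 i = h i := by
      intro i hi
      by_contra hne
      exact hi (by rw [hR, mem_filter]; exact ⟨mem_univ _, hne⟩)
    set T : Finset (Fin s) := univ.filter fun i => h i ≠ 0 ∧ i ∉ R with hT
    have hTmem : ∀ i, i ∈ T ↔ h i ≠ 0 ∧ i ∉ R := by
      intro i
      rw [hT, mem_filter]
      simp
    refine ⟨T, R, hQ, hMp.trans ?_, fun i => if i ∈ R then 0 else h i, mem_image_of_mem _ hh,
      fun i => ?_, ?_⟩
    · rw [← card_union_of_disjoint (disjoint_left.2 fun i hi => ((hTmem i).1 hi).2)]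
      refine card_le_card fun i hi => ?_
      rw [mem_supp] at hi
      rw [mem_union]
      by_cases hiR : i ∈ R
      · exact Or.inr hiR
      · left
        rw [hTmem]
        have := hR' i hiR
        exact ⟨by omega, hiR⟩
    · rw [hTmem]
      constructor
      · rintro ⟨h1, h2⟩
        refine ⟨?_, h2⟩
        simp only [if_neg h2]
        exact h1
      · rintro ⟨h1, h2⟩
        simp only [if_neg h2] at h1
        exact ⟨h1, h2⟩
    · rw [mem_Fx]
      refine ⟨(mem_ND.1 hp).1, fun i hi => ?_⟩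
      rw [if_neg hi]
      exact hR' i hi
  · refine (sum_le_card_nsmul _ _ (𝓗.card * (KK s n *
        (N ^ (s + n - M - io r) + N ^ (s - (n + 1) + max r 1)))) fun q hq => ?_).trans ?_
    · have hq' := ix_le hq
      rw [ix, mem_filter] at hq
      obtain ⟨-, h1, h2, h3⟩ := hq
      have t1 := exp_one (s := s) (n := n) (r := r) (M := M) (H := 1) (N := N) hn le_rfl hN h2
        (by omega) h3 hq'
      have t2 := exp_two (s := s) (n := n) (r := r) (H := 1) (N := N) le_rfl hN h2 hrs hq'
      simp only [one_pow, one_mul] at t1 t2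
      exact Nat.mul_le_mul card_image_le (Nat.mul_le_mul_left _ (Nat.add_le_add t1 t2))
    · rw [smul_eq_mul]
      exact Nat.mul_le_mul_right _ (card_ix s r M)

end Pool.Agent.T2h24.VM
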