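import Pool.Agent.T2h24.VM.Near

/-!
Vinogradov's system: solutions whose difference vectors are multiples of small vectors.
-/

set_option autoImplicit false
set_option linter.all false

namespace Pool.Agent.T2h24.VM

open Finset

/-- a set of vectors determined by the entries in `U` -/
lemma card_det {s : ℕ} (D : Finset ℤ) (U : Finset (Fin s)) (S : Finset (Fin s → ℤ))
    (h1 : ∀ t ∈ S, ∀ i ∈ U, t i ∈ D)
    (h2 : ∀ t ∈ S, ∀ t' ∈ S, (∀ i ∈ U, t i = t' i) → t = t') : S.card ≤ D.card ^ U.card := by
  classical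
  rw [← card_pi]
  refine card_le_card_of_injOn (fun t i => if i ∈ U then t i else 0) ?_ ?_
  · intro t ht
    rw [mem_coe] at ht
    rw [mem_coe, Fintype.mem_piFinset]
    intro i
    by_cases hi : i ∈ U
    · simp only [if_pos hi]
      exact h1 t ht i hi
    · simp only [if_neg hi]
      exact mem_singleton_self 0
  · intro t ht t' ht' heq
    refine h2 t ht t' ht' fun i hi => ?_
    have := congrFun heq i
    simpa only [if_pos hi] using this

open scoped Classical in
/-- the vectors with support in `T`, entries at most `b`, the entry `ε` at `i0`, and sum zero if `R` is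
empty -/
noncomputable def Sm {s : ℕ} (b : ℕ) (ε : ℤ) (i0 : Fin s) (T R : Finset (Fin s)) :
    Finset (Fin s → ℤ) :=
  (Fintype.piFinset fun i : Fin s => if i ∈ T then Icc (-(b : ℤ)) b else {0}).filter fun t =>
    t i0 = ε ∧ (R = ∅ → ∑ i, t i = 0)

lemma card_Sm {s : ℕ} (b : ℕ) (ε : ℤ) (i0 : Fin s) (T R : Finset (Fin s)) (hi0 : i0 ∈ T)
    (hT : 2 ≤ T.card) : (Sm b ε i0 T R).card ≤ (2 * b + 1) ^ (T.card - 1 - io R.card) := by
  classical
  have hD : (Icc (-(b : ℤ)) b).card = 2 * b + 1 := by
    rw [Int.card_Icc]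
    omega
  have hin : ∀ t ∈ Sm b ε i0 T R, ∀ i ∈ T, t i ∈ Icc (-(b : ℤ)) b := by
    intro t ht i hi
    rw [Sm, mem_filter, Fintype.mem_piFinset] at ht
    have := ht.1 i
    rwa [if_pos hi] at this
  have hout : ∀ t ∈ Sm b ε i0 T R, ∀ i, i ∉ T → t i = 0 := by
    intro t ht i hi
    rw [Sm, mem_filter, Fintype.mem_piFinset] at ht
    have := ht.1 i
    rwa [if_neg hi, mem_singleton] at this
  have hval : ∀ t ∈ Sm b ε i0 T R, t i0 = ε := by
    intro t ht
    rw [Sm, mem_filter] at ht
    exact ht.2.1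
  rcases R.eq_empty_or_nonempty with hR | hR
  · obtain ⟨i1, hi1⟩ : (T.erase i0).Nonempty := by
      rw [← card_pos, card_erase_of_mem hi0]
      omega
    have e : T.card - 1 - io R.card = ((T.erase i0).erase i1).card := by
      rw [hR, card_empty, io_zero, card_erase_of_mem hi1, card_erase_of_mem hi0]
    rw [e, ← hD]
    refine card_det _ _ _ (fun t ht i hi => hin t ht i (mem_of_mem_erase (mem_of_mem_erase hi)))
      fun t ht t' ht' heq => ?_
    have hsum : ∀ u ∈ Sm b ε i0 T R, ∑ i, u i = 0 := by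
      intro u hu
      rw [Sm, mem_filter] at hu
      exact hu.2.2 hR
    have h1 : ∀ i, i ≠ i1 → t i = t' i := by
      intro i hi
      by_cases hi0' : i = i0
      · rw [hi0', hval t ht, hval t' ht']
      · by_cases hiT : i ∈ T
        · exact heq i (mem_erase.2 ⟨hi, mem_erase.2 ⟨hi0', hiT⟩⟩)
        · rw [hout t ht i hiT, hout t' ht' i hiT]
    funext i
    by_cases hi : i = i1
    · have e1 := hsum t ht
      have e2 := hsum t' ht'
      rw [← add_sum_erase univ _ (mem_univ i1)] at e1 e2
      rw [sum_congr rfl fun j hj => h1 j (ne_of_mem_erase hj)] at e1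
      rw [hi]
      linarith
    · exact h1 i hi
  · have e : T.card - 1 - io R.card = (T.erase i0).card := by
      rw [io_pos (card_pos.2 hR), card_erase_of_mem hi0, Nat.sub_zero]
    rw [e, ← hD]
    refine card_det _ _ _ (fun t ht i hi => hin t ht i (mem_of_mem_erase hi))
      fun t ht t' ht' heq => ?_
    funext i
    by_cases hi0' : i = i0
    · rw [hi0', hval t ht, hval t' ht']
    · by_cases hiT : i ∈ T
      · exact heq i (mem_erase.2 ⟨hi0', hiT⟩)
      · rw [hout t ht i hiT, hout t' ht' i hiT]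

open scoped Classical in
/-- multiples of small vectors -/
noncomputable def Mul {s : ℕ} (N B : ℕ) (T R : Finset (Fin s)) : Finset (Fin s → ℤ) :=
  (Icc 1 B).biUnion fun b => (Icc 1 (N / b)).biUnion fun q => T.biUnion fun i0 =>
    (Sm b b i0 T R ∪ Sm b (-b) i0 T R).image fun t i => (q : ℤ) * t i

lemma sum_div (N B j : ℕ) (hj : 1 ≤ j) : ∑ b ∈ Icc 1 B, N / b * b ^ j ≤ N * B ^ j := by
  calc ∑ b ∈ Icc 1 B, N / b * b ^ j ≤ ∑ _b ∈ Icc 1 B, N * B ^ (j - 1) := by
        refine sum_le_sum fun b hb => ?_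
        rw [mem_Icc] at hb
        calc N / b * b ^ j = (N / b * b) * b ^ (j - 1) := by
              rw [mul_assoc, ← pow_succ']
              congr 2
              omega
          _ ≤ N * B ^ (j - 1) := Nat.mul_le_mul (Nat.div_mul_le_self N b)
              (Nat.pow_le_pow_left hb.2 _)
    _ = N * B ^ j := by
        rw [sum_const, Nat.card_Icc, smul_eq_mul, Nat.add_sub_cancel]
        calc B * (N * B ^ (j - 1)) = N * (B ^ (j - 1) * B) := by ring
          _ = _ := by
            rw [← pow_succ]
            congr 2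
            omega

lemma card_Mul {s : ℕ} (N B : ℕ) (T R : Finset (Fin s)) (hT : 2 + io R.card ≤ T.card) :
    (Mul N B T R).card ≤ 2 * s * 3 ^ s * (N * B ^ (T.card - 1 - io R.card)) := by
  classical
  set j := T.card - 1 - io R.card with hj
  have hTs : T.card ≤ s := by simpa using card_le_univ T
  have hone : ∀ b ∈ Icc 1 B, ((Icc 1 (N / b)).biUnion fun q => T.biUnion fun i0 =>
      (Sm b b i0 T R ∪ Sm b (-b) i0 T R).image fun t i => (q : ℤ) * t i).card ≤
      2 * s * 3 ^ s * (N / b * b ^ j) := by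
    intro b hb
    rw [mem_Icc] at hb
    have h1 : ∀ q ∈ Icc 1 (N / b), (T.biUnion fun i0 =>
        (Sm b b i0 T R ∪ Sm b (-b) i0 T R).image fun t i => (q : ℤ) * t i).card ≤
        2 * s * 3 ^ s * b ^ j := by
      intro q _
      have h2 : ∀ i0 ∈ T, ((Sm b b i0 T R ∪ Sm b (-b) i0 T R).image
          fun t i => (q : ℤ) * t i).card ≤ 2 * (3 ^ s * b ^ j) := by
        intro i0 hi0
        refine card_image_le.trans ((card_union_le _ _).trans ?_)
        have h3 : ∀ ε : ℤ, (Sm b ε i0 T R).card ≤ 3 ^ s * b ^ j := by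
          intro ε
          refine (card_Sm b ε i0 T R hi0 (by omega)).trans ?_
          rw [← hj]
          calc (2 * b + 1) ^ j ≤ (3 * b) ^ j := Nat.pow_le_pow_left (by omega) _
            _ = 3 ^ j * b ^ j := mul_pow _ _ _
            _ ≤ _ := Nat.mul_le_mul_right _ (Nat.pow_le_pow_right (by norm_num) (by omega))
        rw [two_mul]
        exact Nat.add_le_add (h3 _) (h3 _)
      refine (card_biUnion_le_card_mul _ _ _ h2).trans ?_
      calc T.card * (2 * (3 ^ s * b ^ j)) ≤ s * (2 * (3 ^ s * b ^ j)) := Nat.mul_le_mul_right _ hTs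
        _ = _ := by ring
    refine (card_biUnion_le_card_mul _ _ _ h1).trans ?_
    rw [Nat.card_Icc, Nat.add_sub_cancel]
    exact le_of_eq (by ring)
  calc (Mul N B T R).card ≤ ∑ b ∈ Icc 1 B, ((Icc 1 (N / b)).biUnion fun q => T.biUnion fun i0 =>
      (Sm b b i0 T R ∪ Sm b (-b) i0 T R).image fun t i => (q : ℤ) * t i).card := card_biUnion_le
    _ ≤ ∑ b ∈ Icc 1 B, 2 * s * 3 ^ s * (N / b * b ^ j) := sum_le_sum hone
    _ = 2 * s * 3 ^ s * ∑ b ∈ Icc 1 B, N / b * b ^ j := by rw [mul_sum]
    _ ≤ _ := Nat.mul_le_mul_left _ (sum_div N B j (by omega))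

open scoped Classical in
/-- the decomposition -/
lemma mul_decomp {s n N M r B : ℕ} (p : (Fin s → ℕ) × (Fin s → ℕ)) (hM : r + 1 ≤ M)
    (hp : p ∈ ND s (n + 1) N) (q : ℕ) (t : Fin s → ℤ) (ht : ∀ i, |t i| ≤ (B : ℤ))
    (hQ : (univ.filter fun i => (p.2 i : ℤ) - p.1 i ≠ q * t i).card ≤ r)
    (hMp : M ≤ (supp p).card) :
    ∃ T R : Finset (Fin s), R.card ≤ r ∧ M ≤ T.card + R.card ∧
      ∃ h ∈ Mul N B T R, (∀ i, i ∈ T ↔ h i ≠ 0 ∧ i ∉ R) ∧ p ∈ Fx s (n + 1) N h R := by
  have hsol : p ∈ Sol s (n + 1) N := (mem_ND.1 hp).1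
  set R : Finset (Fin s) := univ.filter fun i => (p.2 i : ℤ) - p.1 i ≠ q * t i with hR
  have hR' : ∀ i, i ∉ R → (p.2 i : ℤ) - p.1 i = q * t i := by
    intro i hi
    by_contra hne
    exact hi (by rw [hR, mem_filter]; exact ⟨mem_univ _, hne⟩)
  set T : Finset (Fin s) := univ.filter fun i => (q : ℤ) * t i ≠ 0 ∧ i ∉ R with hT
  have hTmem : ∀ i, i ∈ T ↔ (q : ℤ) * t i ≠ 0 ∧ i ∉ R := by
    intro i
    rw [hT, mem_filter]
    simp
  have hcard : M ≤ T.card + R.card := by
    refine hMp.trans ?_
    rw [← card_union_of_disjoint (disjoint_left.2 fun i hi => ((hTmem i).1 hi).2)]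
    refine card_le_card fun i hi => ?_
    rw [mem_supp] at hi
    rw [mem_union]
    by_cases hiR : i ∈ R
    · exact Or.inr hiR
    · left
      rw [hTmem]
      have := hR' i hiR
      exact ⟨by omega, hiR⟩
  have hTne : T.Nonempty := by
    rw [← card_pos]
    omega
  obtain ⟨i0, hi0, hmax⟩ := exists_max_image T (fun i => |t i|) hTne
  have ht0 : t i0 ≠ 0 := fun h => ((hTmem i0).1 hi0).1 (by rw [h, mul_zero])
  have hq0 : q ≠ 0 := fun h => ((hTmem i0).1 hi0).1 (by rw [h]; simp)
  obtain ⟨b, hb⟩ : ∃ b : ℕ, (b : ℤ) = |t i0| := ⟨(t i0).natAbs, by simp⟩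
  have hb1 : 1 ≤ b := by
    have : 0 < |t i0| := abs_pos.2 ht0
    omega
  have hbB : b ≤ B := by
    have := ht i0
    omega
  have hqb : q * b ≤ N := by
    have h1 := hR' i0 ((hTmem i0).1 hi0).2
    have h2 : ((q * b : ℕ) : ℤ) = |(p.2 i0 : ℤ) - p.1 i0| := by
      rw [h1, abs_mul, ← hb]
      push_cast
      simp
    rw [mem_Sol] at hsol
    have h3 := mem_Icc.1 (hsol.1.1 i0)
    have h4 := mem_Icc.1 (hsol.1.2 i0)
    have h5 : |(p.2 i0 : ℤ) - p.1 i0| ≤ N := by
      rw [abs_le]
      constructor <;> omega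
    omega
  refine ⟨T, R, hQ, hcard, fun i => if i ∈ T then (q : ℤ) * t i else 0, ?_, fun i => ?_, ?_⟩
  · rw [Mul, mem_biUnion]
    refine ⟨b, mem_Icc.2 ⟨hb1, hbB⟩, ?_⟩
    rw [mem_biUnion]
    refine ⟨q, mem_Icc.2 ⟨Nat.one_le_iff_ne_zero.2 hq0, (Nat.le_div_iff_mul_le hb1).2 hqb⟩, ?_⟩
    rw [mem_biUnion]
    refine ⟨i0, hi0, ?_⟩
    rw [mem_image]
    refine ⟨fun i => if i ∈ T then t i else 0, ?_, ?_⟩
    · have hbox : (fun i => if i ∈ T then t i else 0) ∈
          (Fintype.piFinset fun i : Fin s => if i ∈ T then Icc (-(b : ℤ)) b else {0}) := by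
        rw [Fintype.mem_piFinset]
        intro i
        by_cases hi : i ∈ T
        · simp only [if_pos hi]
          rw [mem_Icc, ← abs_le, hb]
          exact hmax i hi
        · simp only [if_neg hi]
          exact mem_singleton_self 0
      have hsum : R = ∅ → ∑ i, (if i ∈ T then t i else 0) = 0 := by
        intro hR0
        have h1 := sum_diff (by omega) hsol
        have h2 : ∀ i, (p.2 i : ℤ) - p.1 i = q * (if i ∈ T then t i else 0) := by
          intro i
          have hiR : i ∉ R := by rw [hR0]; exact notMem_empty i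
          rw [hR' i hiR]
          by_cases hi : i ∈ T
          · rw [if_pos hi]
          · rw [if_neg hi, mul_zero]
            by_contra hne
            exact hi ((hTmem i).2 ⟨hne, hiR⟩)
        rw [sum_congr rfl fun i _ => h2 i, ← mul_sum] at h1
        exact (mul_eq_zero.1 h1).resolve_left (by exact_mod_cast hq0)
      rw [mem_union]
      rcases abs_choice (t i0) with h | h
      · left
        rw [Sm, mem_filter]
        refine ⟨hbox, ?_, hsum⟩
        simp only [if_pos hi0]
        rw [hb, h]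
      · right
        rw [Sm, mem_filter]
        refine ⟨hbox, ?_, hsum⟩
        simp only [if_pos hi0]
        rw [hb, h, neg_neg]
    · funext i
      by_cases hi : i ∈ T
      · simp only [if_pos hi]
      · simp only [if_neg hi, mul_zero]
  · constructor
    · intro hi
      simp only [if_pos hi]
      exact (hTmem i).1 hi
    · rintro ⟨h1, -⟩
      by_contra hi
      simp only [if_neg hi] at h1
      exact h1 rfl
  · rw [mem_Fx]
    refine ⟨hsol, fun i hi => ?_⟩
    by_cases hiT : i ∈ T
    · rw [if_pos hiT]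
      exact hR' i hi
    · rw [if_neg hiT, hR' i hi]
      by_contra hne
      exact hiT ((hTmem i).2 ⟨hne, hi⟩)

open scoped Classical in
/-- solutions with differences proportional to small integers -/
theorem prop_bound {s n M r : ℕ} (hn : 1 ≤ n) (hM : n + 2 ≤ M) (hr : r ≤ n) (hrs : max r 1 < s)
    (N B : ℕ) (hB : 1 ≤ B) (hBN : B ≤ N) :
    ((ND s (n + 1) N).filter fun p => ∃ (q : ℕ) (t : Fin s → ℤ), (∀ i, |t i| ≤ (B : ℤ)) ∧
        (univ.filter fun i => (p.2 i : ℤ) - p.1 i ≠ q * t i).card ≤ r).card ≤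
      ((ND s (n + 1) N).filter fun p => (supp p).card < M).card +
      2 ^ (2 * s) * (2 * s * 3 ^ s * KK s n *
        (B ^ (M - 2) * N ^ (s + n + 1 - M - io r) +
          B ^ (s - 1 - max r 1) * N ^ (s - n + max r 1))) := by
  have hN : 1 ≤ N := hB.trans hBN
  refine (gen (r := r) hM N hN _ (Mul N B) ?_).trans (Nat.add_le_add_left ?_ _)
  · rintro p hp ⟨q, t, ht, hQ⟩ hMp
    exact mul_decomp p (by omega) hp q t ht hQ hMp
  · refine (sum_le_card_nsmul _ _ (2 * s * 3 ^ s * KK s n *
        (B ^ (M - 2) * N ^ (s + n + 1 - M - io r) +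
          B ^ (s - 1 - max r 1) * N ^ (s - n + max r 1))) fun q hq => ?_).trans ?_
    · have hq' := ix_le hq
      rw [ix, mem_filter] at hq
      obtain ⟨-, h1, h2, h3⟩ := hq
      have hio : io q.2.card ≤ 1 := by
        unfold io
        split_ifs <;> omega
      have hTc : 2 + io q.2.card ≤ q.1.card := by
        rcases Nat.eq_zero_or_pos q.2.card with h0 | h0
        · omega
        · rw [io_pos h0]
          omega
      have hrM : io r ≤ s + n - M := by
        unfold io
        split_ifs <;> omega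
      have t1 : B ^ (q.1.card - 1 - io q.2.card) *
          N ^ (n - io q.2.card + (s - (q.1.card + q.2.card))) * N ≤
          B ^ (M - 2) * N ^ (s + n + 1 - M - io r) := by
        have t := exp_one (s := s) (n := n) (r := r) (M := M) (H := B) (N := N) hn hB hBN h2
          (by omega) h3 hq'
        have e1 : B ^ (q.1.card - io q.2.card) = B * B ^ (q.1.card - 1 - io q.2.card) := by
          rw [← pow_succ']
          congr 1
          omega
        have e2 : B ^ (M - 1) = B * B ^ (M - 2) := by
          rw [← pow_succ']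
          congr 1
          omega
        rw [e1, e2, mul_assoc, mul_assoc] at t
        have t' := Nat.le_of_mul_le_mul_left t hB
        calc _ ≤ B ^ (M - 2) * N ^ (s + n - M - io r) * N := Nat.mul_le_mul_right _ t'
          _ = _ := by
            rw [mul_assoc, ← pow_succ]
            congr 2
            omega
      have t2 : B ^ (q.1.card - 1 - io q.2.card) * N ^ (s - (n + 1) + max q.2.card 1) * N ≤
          B ^ (s - 1 - max r 1) * N ^ (s - n + max r 1) := by
        have t := exp_two (s := s) (n := n) (r := r) (H := B) (N := N) hB hBN h2 hrs.le hq'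
        have e1 : B ^ (q.1.card - io q.2.card) = B * B ^ (q.1.card - 1 - io q.2.card) := by
          rw [← pow_succ']
          congr 1
          omega
        have e2 : B ^ (s - max r 1) = B * B ^ (s - 1 - max r 1) := by
          rw [← pow_succ']
          congr 1
          omega
        rw [e1, e2, mul_assoc, mul_assoc] at t
        have t' := Nat.le_of_mul_le_mul_left t hB
        calc _ ≤ B ^ (s - 1 - max r 1) * N ^ (s - (n + 1) + max r 1) * N := Nat.mul_le_mul_right _ t'
          _ = _ := by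
            rw [mul_assoc, ← pow_succ]
            congr 2
            omega
      calc (Mul N B q.1 q.2).card * (KK s n *
        (N ^ (n - io q.2.card + (s - (q.1.card + q.2.card))) +
          N ^ (s - (n + 1) + max q.2.card 1)))
          ≤ (2 * s * 3 ^ s * (N * B ^ (q.1.card - 1 - io q.2.card))) * (KK s n *
        (N ^ (n - io q.2.card + (s - (q.1.card + q.2.card))) +
          N ^ (s - (n + 1) + max q.2.card 1))) := Nat.mul_le_mul_right _ (card_Mul N B _ _ hTc)
        _ = 2 * s * 3 ^ s * KK s n * (B ^ (q.1.card - 1 - io q.2.card) *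
          N ^ (n - io q.2.card + (s - (q.1.card + q.2.card))) * N +
          B ^ (q.1.card - 1 - io q.2.card) * N ^ (s - (n + 1) + max q.2.card 1) * N) := by ring
        _ ≤ _ := Nat.mul_le_mul_left _ (Nat.add_le_add t1 t2)
    · rw [smul_eq_mul]
      exact Nat.mul_le_mul_right _ (card_ix s r M)

end Pool.Agent.T2h24.VM
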