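import Pool.Agent.T2h24.VM.Cnt
import Pool.Agent.Results.MP_e21eee_nt.PaucityLatticeChain

/-!
Vinogradov's system: non-diagonal solutions whose tuples differ in few places.
-/

set_option autoImplicit false
set_option linter.all false

namespace Pool.Agent.T2h24.VM

open Finset Filter Topology
open Pool.Agent.R470.VM (newton_support)

open scoped Classical in
/-- the non-diagonal solutions -/
noncomputable def ND (s k N : ℕ) : Finset ((Fin s → ℕ) × (Fin s → ℕ)) :=
  (Sol s k N).filter fun p => ¬ ∃ σ : Equiv.Perm (Fin s), p.2 = p.1 ∘ σ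

open scoped Classical in
/-- the set of the places in which the tuples differ -/
noncomputable def supp {s : ℕ} (p : (Fin s → ℕ) × (Fin s → ℕ)) : Finset (Fin s) :=
  univ.filter fun i => p.1 i ≠ p.2 i

lemma mem_ND {s k N : ℕ} {p : (Fin s → ℕ) × (Fin s → ℕ)} : p ∈ ND s k N ↔
    p ∈ Sol s k N ∧ ¬ ∃ σ : Equiv.Perm (Fin s), p.2 = p.1 ∘ σ := by
  rw [ND, mem_filter]

lemma mem_supp {s : ℕ} {p : (Fin s → ℕ) × (Fin s → ℕ)} {i : Fin s} :
    i ∈ supp p ↔ p.1 i ≠ p.2 i := by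
  simp [supp]

lemma lt_supp {s k N : ℕ} {p : (Fin s → ℕ) × (Fin s → ℕ)} (hp : p ∈ ND s k N) :
    k < (supp p).card := by
  rw [mem_ND, mem_Sol] at hp
  by_contra hle
  refine hp.2 (newton_support p.1 p.2 hp.1.2 (supp p) (fun i hi => ?_) (not_lt.1 hle))
  by_contra hne
  exact hi (mem_supp.2 hne)

theorem pau (m k : ℕ) (hk : k < m) (hm : 2 * m * (m - 1) + 4 < 3 * k ^ 2) :
    ∃ δ : ℝ, 0 < δ ∧ ∃ C : ℝ, 0 ≤ C ∧ ∀ N : ℕ, 1 ≤ N →
      ((ND m k N).card : ℝ) ≤ C * (N : ℝ) ^ ((m : ℝ) - δ) := by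
  classical
  obtain ⟨hmain, -, -⟩ := Pool.Agent.Results.MP_e21eee_nt.PaucityLatticeChain.result m k hk
  set A : ℝ := 4 * ((m : ℝ) - k) * m - 2 * ((m : ℝ) - k - 1) * ((m : ℝ) - k + 2) + 1 with hA
  have hmR : 2 * (m : ℝ) * ((m : ℝ) - 1) + 4 < 3 * (k : ℝ) ^ 2 := by
    have h1 : ((2 * m * (m - 1) + 4 : ℕ) : ℝ) < ((3 * k ^ 2 : ℕ) : ℝ) := by exact_mod_cast hm
    push_cast [Nat.cast_sub (by omega : 1 ≤ m)] at h1
    exact h1
  have hk0 : (0 : ℝ) ≤ k := Nat.cast_nonneg k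
  have hA1 : Real.sqrt A < k + 1 := by
    rw [Real.sqrt_lt' (by linarith)]
    rw [hA]
    nlinarith
  set E : ℝ := Real.sqrt A + ((m : ℝ) - k - 1) with hE
  have hEm : E < m := by rw [hE]; linarith
  obtain ⟨C, hC⟩ := hmain ((m - E) / 2) (by linarith)
  refine ⟨(m - E) / 2, by linarith, max C 0, le_max_right _ _, fun N hN => ?_⟩
  have h1 := hC N hN
  have e1 : E + (m - E) / 2 = (m : ℝ) - (m - E) / 2 := by ring
  rw [e1] at h1
  have h2 : ((ND m k N).card : ℝ) ≤ C * (N : ℝ) ^ ((m : ℝ) - (m - E) / 2) := by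
    refine le_trans (le_of_eq ?_) h1
    congr 2
    ext p
    rw [mem_ND, mem_Sol]
    simp only [mem_filter, mem_product, Fintype.mem_piFinset]
    tauto
  refine h2.trans (mul_le_mul_of_nonneg_right (le_max_left _ _) (by positivity))

open scoped Classical in
theorem small_supp (s k N : ℕ) (T : Finset (Fin s)) :
    ((ND s k N).filter fun p => ∀ i, i ∉ T → p.1 i = p.2 i).card ≤
      (ND T.card k N).card * N ^ (s - T.card) := by
  let e : Fin T.card ≃ {i // i ∈ T} := T.equivFin.symm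
  let f : Fin T.card → Fin s := fun j => (e j : Fin s)
  let Ψ : (Fin s → ℕ) × (Fin s → ℕ) → ((Fin T.card → ℕ) × (Fin T.card → ℕ)) × (Fin s → ℕ) :=
    fun p => ((p.1 ∘ f, p.2 ∘ f), fun i => if i ∈ T then 0 else p.1 i)
  rw [← card_off N T, ← card_product]
  refine card_le_card_of_injOn Ψ ?_ ?_
  · intro p hp
    rw [mem_coe, mem_filter, mem_ND, mem_Sol] at hp
    obtain ⟨⟨⟨⟨h1, h2⟩, h3⟩, h4⟩, h5⟩ := hp
    rw [mem_coe, mem_product, mem_ND, mem_Sol]
    refine ⟨⟨⟨⟨fun j => h1 _, fun j => h2 _⟩, fun j => ?_⟩, ?_⟩, ?_⟩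
    · have e1 : ∀ (x : Fin s → ℕ), ∑ i : Fin T.card, (x ∘ f) i ^ (j.val + 1) =
          ∑ i ∈ T, x i ^ (j.val + 1) := by
        intro x
        rw [← sum_coe_sort T (fun i => x i ^ (j.val + 1))]
        exact Equiv.sum_comp e (fun t : {i // i ∈ T} => x t ^ (j.val + 1))
      show ∑ i, (p.1 ∘ f) i ^ (j.val + 1) = ∑ i, (p.2 ∘ f) i ^ (j.val + 1)
      rw [e1, e1]
      have h6 := h3 j
      rw [← sum_add_sum_compl T, ← sum_add_sum_compl T fun i => p.2 i ^ (j.val + 1)] at h6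
      have h7 : ∑ i ∈ Tᶜ, p.1 i ^ (j.val + 1) = ∑ i ∈ Tᶜ, p.2 i ^ (j.val + 1) :=
        sum_congr rfl fun i hi => by rw [h5 i (mem_compl.1 hi)]
      omega
    · rintro ⟨τ, hτ⟩
      refine h4 ⟨τ.extendDomain e, ?_⟩
      funext i
      by_cases hi : i ∈ T
      · obtain ⟨j, hj⟩ := e.surjective ⟨i, hi⟩
        have h6 := congrFun hτ j
        have h7 : (τ.extendDomain e) i = f (τ j) := by
          have := Equiv.Perm.extendDomain_apply_image τ e j
          rw [hj] at this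
          exact this
        have h8 : f j = i := by
          show (e j : Fin s) = i
          rw [hj]
        show p.2 i = p.1 ((τ.extendDomain e) i)
        rw [h7, ← h8]
        exact h6
      · have h7 : (τ.extendDomain e) i = i := Equiv.Perm.extendDomain_apply_not_subtype τ e hi
        show p.2 i = p.1 ((τ.extendDomain e) i)
        rw [h7]
        exact (h5 i hi).symm
    · rw [Fintype.mem_piFinset]
      intro i
      by_cases hi : i ∈ T
      · simp [Ψ, hi]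
      · simp only [Ψ, if_neg hi]
        exact h1 i
  · intro p hp q hq hpq
    rw [mem_coe, mem_filter] at hp hq
    have h1 : p.1 = q.1 := by
      funext i
      by_cases hi : i ∈ T
      · obtain ⟨j, hj⟩ := e.surjective ⟨i, hi⟩
        have h6 : (p.1 ∘ f) j = (q.1 ∘ f) j := congrFun (congrArg (fun z => z.1.1) hpq) j
        have h8 : f j = i := by
          show (e j : Fin s) = i
          rw [hj]
        show p.1 i = q.1 i
        rw [← h8]
        exact h6
      · have h6 := congrFun (congrArg Prod.snd hpq) i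
        simp only [Ψ, if_neg hi] at h6
        exact h6
    refine Prod.ext h1 ?_
    funext i
    by_cases hi : i ∈ T
    · obtain ⟨j, hj⟩ := e.surjective ⟨i, hi⟩
      have h6 : (p.2 ∘ f) j = (q.2 ∘ f) j := congrFun (congrArg (fun z => z.1.2) hpq) j
      have h8 : f j = i := by
        show (e j : Fin s) = i
        rw [hj]
      rw [← h8]
      exact h6
    · rw [← hp.2 i hi, ← hq.2 i hi, h1]

open scoped Classical in
theorem small_total (s k M : ℕ) (hM : ∀ m, k < m → m < M → 2 * m * (m - 1) + 4 < 3 * k ^ 2) :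
    ∃ δ : ℝ, 0 < δ ∧ ∃ C : ℝ, 0 ≤ C ∧ ∀ N : ℕ, 1 ≤ N →
      (((ND s k N).filter fun p => (supp p).card < M).card : ℝ) ≤ C * (N : ℝ) ^ ((s : ℝ) - δ) := by
  have key : ∀ T ∈ (univ : Finset (Finset (Fin s))).filter (fun T => k < T.card ∧ T.card < M),
      ∀ᶠ δ : ℝ in 𝓝[>] 0, ∃ C : ℝ, 0 ≤ C ∧ ∀ N : ℕ, 1 ≤ N →
        (((ND s k N).filter fun p => ∀ i, i ∉ T → p.1 i = p.2 i).card : ℝ) ≤
          C * (N : ℝ) ^ ((s : ℝ) - δ) := by
    intro T hT
    obtain ⟨-, h1, h2⟩ := mem_filter.1 hT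
    obtain ⟨δ0, hδ0, C, hC0, hC⟩ := pau T.card k h1 (hM _ h1 h2)
    have : Set.Ioc (0 : ℝ) δ0 ∈ 𝓝[>] (0 : ℝ) := Ioc_mem_nhdsGT hδ0
    filter_upwards [this] with δ hδ
    refine ⟨C, hC0, fun N hN => ?_⟩
    have hN1 : (1 : ℝ) ≤ (N : ℝ) := by exact_mod_cast hN
    have hN0 : (0 : ℝ) < (N : ℝ) := by linarith
    have hTs : T.card ≤ s := by simpa using card_le_univ T
    have h3 : (((ND s k N).filter fun p => ∀ i, i ∉ T → p.1 i = p.2 i).card : ℝ) ≤
        ((ND T.card k N).card : ℝ) * (N : ℝ) ^ (s - T.card) := by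
      exact_mod_cast small_supp s k N T
    calc _ ≤ ((ND T.card k N).card : ℝ) * (N : ℝ) ^ (s - T.card) := h3
      _ ≤ (C * (N : ℝ) ^ ((T.card : ℝ) - δ0)) * (N : ℝ) ^ (s - T.card) :=
          mul_le_mul_of_nonneg_right (hC N hN) (by positivity)
      _ = C * (N : ℝ) ^ ((s : ℝ) - δ0) := by
          rw [← Real.rpow_natCast, mul_assoc, ← Real.rpow_add hN0, Nat.cast_sub hTs]
          congr 2
          ring
      _ ≤ C * (N : ℝ) ^ ((s : ℝ) - δ) :=
          mul_le_mul_of_nonneg_left (Real.rpow_le_rpow_of_exponent_le hN1 (by linarith [hδ.2])) hC0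
  obtain ⟨δ, hδ, hδ0⟩ := ((eventually_all_finset _).2 key |>.and self_mem_nhdsWithin).exists
  choose! C hC0 hC using hδ
  refine ⟨δ, hδ0, ∑ T ∈ (univ : Finset (Finset (Fin s))).filter
    (fun T => k < T.card ∧ T.card < M), C T, sum_nonneg fun T hT => hC0 T hT, fun N hN => ?_⟩
  have hsub : ((ND s k N).filter fun p => (supp p).card < M) ⊆
      ((univ : Finset (Finset (Fin s))).filter (fun T => k < T.card ∧ T.card < M)).biUnion
        fun T => (ND s k N).filter fun p => ∀ i, i ∉ T → p.1 i = p.2 i := by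
    intro p hp
    rw [mem_filter] at hp
    rw [mem_biUnion]
    refine ⟨supp p, mem_filter.2 ⟨mem_univ _, lt_supp hp.1, hp.2⟩, mem_filter.2 ⟨hp.1, ?_⟩⟩
    intro i hi
    by_contra hne
    exact hi (mem_supp.2 hne)
  calc (((ND s k N).filter fun p => (supp p).card < M).card : ℝ) ≤
        (((univ : Finset (Finset (Fin s))).filter (fun T => k < T.card ∧ T.card < M)).biUnion
        fun T => (ND s k N).filter fun p => ∀ i, i ∉ T → p.1 i = p.2 i).card := by
          exact_mod_cast card_le_card hsub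
    _ ≤ ∑ T ∈ (univ : Finset (Finset (Fin s))).filter (fun T => k < T.card ∧ T.card < M),
        (((ND s k N).filter fun p => ∀ i, i ∉ T → p.1 i = p.2 i).card : ℝ) := by
          exact_mod_cast card_biUnion_le
    _ ≤ ∑ T ∈ (univ : Finset (Finset (Fin s))).filter (fun T => k < T.card ∧ T.card < M),
        C T * (N : ℝ) ^ ((s : ℝ) - δ) := sum_le_sum fun T hT => hC T hT N hN
    _ = _ := by rw [sum_mul]

open scoped Classical in
/-- permutations of `y` -/
theorem perm_le (s k N : ℕ) (Q : (Fin s → ℕ) × (Fin s → ℕ) → Prop) [DecidablePred Q]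
    [DecidablePred fun p : (Fin s → ℕ) × (Fin s → ℕ) => ∃ σ : Equiv.Perm (Fin s), Q (p.1, p.2 ∘ σ)] :
    ((ND s k N).filter fun p => ∃ σ : Equiv.Perm (Fin s), Q (p.1, p.2 ∘ σ)).card ≤
      s.factorial * ((ND s k N).filter Q).card := by
  have hsub : ((ND s k N).filter fun p => ∃ σ : Equiv.Perm (Fin s), Q (p.1, p.2 ∘ σ)) ⊆
      (univ : Finset (Equiv.Perm (Fin s))).biUnion
      fun σ => ((ND s k N).filter Q).image fun p => (p.1, p.2 ∘ σ) := by
    intro p hp
    rw [mem_filter, mem_ND, mem_Sol] at hp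
    obtain ⟨⟨⟨⟨h1, h1'⟩, h2⟩, h4⟩, σ, h3⟩ := hp
    rw [mem_biUnion]
    refine ⟨σ.symm, mem_univ _, ?_⟩
    rw [mem_image]
    refine ⟨(p.1, p.2 ∘ σ), ?_, ?_⟩
    · rw [mem_filter, mem_ND, mem_Sol]
      refine ⟨⟨⟨⟨h1, fun i => h1' (σ i)⟩, fun j => ?_⟩, ?_⟩, h3⟩
      · rw [h2 j]
        exact (Equiv.sum_comp σ (fun i => p.2 i ^ (j.val + 1))).symm
      · rintro ⟨τ, hτ⟩
        refine h4 ⟨σ.symm.trans τ, ?_⟩
        funext i
        have := congrFun hτ (σ.symm i)
        simpa using this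
    · refine Prod.ext rfl ?_
      funext i
      simp
  calc _ ≤ _ := card_le_card hsub
    _ ≤ ∑ σ : Equiv.Perm (Fin s), (((ND s k N).filter Q).image fun p => (p.1, p.2 ∘ σ)).card :=
        card_biUnion_le
    _ ≤ ∑ _σ : Equiv.Perm (Fin s), ((ND s k N).filter Q).card := sum_le_sum fun σ _ => card_image_le
    _ = _ := by
        rw [sum_const, card_univ, Fintype.card_perm, Fintype.card_fin, smul_eq_mul]

end Pool.Agent.T2h24.VM
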